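import Pool.Agent.H717.PR.Stm

/-!
# Gadgets of the kinds `10, …, 13` against an interval (helper729 for helper717)
-/

set_option autoImplicit false

namespace Pool.Agent.H729.PR

open Pool.Agent.H717.PR

theorem qc3_mul {S m m' : ℤ} (hS : 0 ≤ S) (h : m < m') : S * m + S ≤ S * m' := by
  have h1 : m + 1 ≤ m' := h
  have h2 := mul_le_mul_of_nonneg_left h1 hS
  linarith [mul_add S m 1]

theorem qc3_abs (x y τ : ℤ) : |max x y| ≤ τ ↔ (-τ ≤ x ∨ -τ ≤ y) ∧ x ≤ τ ∧ y ≤ τ := by
  rw [abs_le, le_max_iff, max_le_iff]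

/-- against the interval of a base vertex -/
theorem qc3_zero {S τ N bp aq au bu : ℤ} (h1 : bp < aq) (h2 : aq - bp ≤ τ) (h3 : aq ≠ bu) (h4 : au ≠ bp)
    (hN : 4 * τ ≤ N) (hS : 2 * N + 10 * τ ≤ S) (hτ : 1 ≤ τ) :
    ¬ |max (S * aq - (aq - bp) + τ - S * bu) (S * au - (S * bp + (aq - bp) - τ))| ≤ τ := by
  have hS0 : 0 ≤ S := by omega
  rw [qc3_abs]
  rcases lt_or_gt_of_ne h3 with h5 | h5
  · have h6 := qc3_mul hS0 h5
    rcases lt_or_gt_of_ne h4 with h7 | h7
    · have h8 := qc3_mul hS0 h7
      omega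
    · have h8 := qc3_mul hS0 h7
      omega
  · have h6 := qc3_mul hS0 h5
    omega

/-- against the interval of a vertex of kind `5`, the same orientation -/
theorem qc3_same {S τ N bp aq bu av nu : ℤ} (h1 : bp < aq) (h2 : aq - bp ≤ τ) (h3 : bu < av) (h4 : av - bu ≤ τ)
    (hn : 4 * τ ≤ nu) (hN : nu ≤ N) (hS : 2 * N + 10 * τ ≤ S) (hτ : 1 ≤ τ) :
    |max (S * aq - (aq - bp) + τ - (S * av + nu)) (S * bu + (av - bu) - (S * bp + (aq - bp) - τ))| ≤ τ ↔
      bu = bp ∧ av = aq := by
  have hS0 : 0 ≤ S := by omega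
  rw [qc3_abs]
  rcases lt_trichotomy bu bp with h5 | h5 | h5
  · have h6 := qc3_mul hS0 h5
    rcases lt_trichotomy av aq with h7 | h7 | h7
    · have h8 := qc3_mul hS0 h7
      omega
    · subst h7
      omega
    · have h8 := qc3_mul hS0 h7
      omega
  · subst h5
    rcases lt_trichotomy av aq with h7 | h7 | h7
    · have h8 := qc3_mul hS0 h7
      omega
    · subst h7
      omega
    · have h8 := qc3_mul hS0 h7
      omega
  · have h6 := qc3_mul hS0 h5
    omega

/-- against the interval of a vertex of kind `5`, the opposite orientation -/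
theorem qc3_opp {S τ N bp aq bv au nu : ℤ} (h1 : bp < aq) (h2 : aq - bp ≤ τ) (h3 : bv < au) (h4 : au - bv ≤ τ)
    (hn : 4 * τ ≤ nu) (hN : nu ≤ N) (hS : 2 * N + 10 * τ ≤ S) (hτ : 1 ≤ τ) :
    |max (S * aq - (aq - bp) + τ - (S * au - (au - bv))) (S * bv - nu - (S * bp + (aq - bp) - τ))| ≤ τ ↔
      au = aq ∧ bv = bp := by
  have hS0 : 0 ≤ S := by omega
  rw [qc3_abs]
  rcases lt_trichotomy bv bp with h5 | h5 | h5
  · have h6 := qc3_mul hS0 h5
    rcases lt_trichotomy au aq with h7 | h7 | h7
    · have h8 := qc3_mul hS0 h7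
      omega
    · subst h7
      omega
    · have h8 := qc3_mul hS0 h7
      omega
  · subst h5
    rcases lt_trichotomy au aq with h7 | h7 | h7
    · have h8 := qc3_mul hS0 h7
      omega
    · subst h7
      omega
    · have h8 := qc3_mul hS0 h7
      omega
  · have h6 := qc3_mul hS0 h5
    omega

/-- one orientation of the gadget -/
theorem qc3_core (hm : S_mem) {I : Inst} {α β ν : Lb → ℤ} {τ N S : ℤ} (h : Marks I α β ν τ N)
    (hS : 2 * N + 10 * τ ≤ S) {p q : Lb} (hp : p ∈ base I) (hq : q ∈ base I) (hpq : β p < α q) {z : VL}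
    (hz : z ∈ vs I) (hk : z.1 = 0 ∨ z.1 = 5) :
    |max (S * α q - (α q - β p) + τ - rt S α β ν z) (lf S α β ν z - (S * β p + (α q - β p) - τ))| ≤ τ ↔
      (z = (5, (p, q)) ∨ z = (5, (q, p))) := by
  obtain ⟨k, u, v⟩ := z
  have hτ := h.pos
  have h2 := h.tau q hq p hp
  have hno : ¬ (β q < α p) := by
    intro h3
    have h4 := h.lt p hp
    have h5 := h.lt q hq
    omega
  have hmz := (hm I (k, (u, v))).1 hz
  simp only at hk hmz
  rcases hk with hk | hk
  · subst hk
    have hu : u ∈ base I := by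
      rcases hmz with h3 | h3 | h3
      · exact h3.2.2
      · omega
      · omega
    have h4 : ¬ |max (S * α q - (α q - β p) + τ - S * β u) (S * α u - (S * β p + (α q - β p) - τ))| ≤ τ :=
      qc3_zero (N := N) hpq h2 (h.ab q hq u hu) (h.ab u hu p hp) ((h.nu1 u hu).1.trans (h.nu1 u hu).2) hS hτ
    constructor
    · intro h5
      exact absurd h5 h4
    · rintro (h5 | h5)
      · exact absurd (congrArg Prod.fst h5) (show ¬ (0 : ℕ) = 5 by decide)
      · exact absurd (congrArg Prod.fst h5) (show ¬ (0 : ℕ) = 5 by decide)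
  · subst hk
    obtain ⟨hu, hv, hf⟩ : u ∈ base I ∧ v ∈ base I ∧ far I u v = true := by
      rcases hmz with h3 | h3 | h3
      · omega
      · omega
      · exact h3.2.2
    have e5 : ∀ a b : Lb, ((5, (u, v)) : VL) = (5, (a, b)) ↔ u = a ∧ v = b := by
      intro a b
      constructor
      · intro h3
        have h4 := congrArg Prod.snd h3
        exact ⟨congrArg Prod.fst h4, congrArg Prod.snd h4⟩
      · rintro ⟨h3, h4⟩
        rw [h3, h4]
    have hbb : β u = β p → u = p := by
      intro h3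
      by_contra h4
      exact h.bb u hu p hp h4 h3
    have haa : α v = α q → v = q := by
      intro h3
      by_contra h4
      exact h.aa v hv q hq h4 h3
    have hbb' : β v = β p → v = p := by
      intro h3
      by_contra h4
      exact h.bb v hv p hp h4 h3
    have haa' : α u = α q → u = q := by
      intro h3
      by_contra h4
      exact h.aa u hu q hq h4 h3
    rw [e5, e5]
    by_cases huv : β u < α v
    · have e1 : rt S α β ν (5, (u, v)) = S * α v + ν u := by
        unfold rt
        rw [if_neg (show ¬ (5 : ℕ) = 0 by decide), if_pos huv]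
      have e2 : lf S α β ν (5, (u, v)) = S * β u + (α v - β u) := by
        unfold lf
        rw [if_neg (show ¬ (5 : ℕ) = 0 by decide), if_pos huv]
      rw [e1, e2, qc3_same hpq h2 huv (h.tau v hv u hu) (h.nu1 u hu).1 (h.nu1 u hu).2 hS hτ]
      constructor
      · rintro ⟨h3, h4⟩
        exact Or.inl ⟨hbb h3, haa h4⟩
      · rintro (⟨h3, h4⟩ | ⟨h3, h4⟩)
        · rw [h3, h4]
          exact ⟨rfl, rfl⟩
        · rw [h3, h4] at huv
          exact absurd huv hno
    · have huv' : β v < α u := (h.far u hu v hv hf).resolve_left huv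
      have e1 : rt S α β ν (5, (u, v)) = S * α u - (α u - β v) := by
        unfold rt
        rw [if_neg (show ¬ (5 : ℕ) = 0 by decide), if_neg huv]
      have e2 : lf S α β ν (5, (u, v)) = S * β v - ν u := by
        unfold lf
        rw [if_neg (show ¬ (5 : ℕ) = 0 by decide), if_neg huv]
      rw [e1, e2, qc3_opp hpq h2 huv' (h.tau u hu v hv) (h.nu1 u hu).1 (h.nu1 u hu).2 hS hτ]
      constructor
      · rintro ⟨h3, h4⟩
        exact Or.inr ⟨haa' h3, hbb' h4⟩
      · rintro (⟨h3, h4⟩ | ⟨h3, h4⟩)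
        · rw [h3, h4] at huv'
          exact absurd huv' hno
        · rw [h3, h4]
          exact ⟨rfl, rfl⟩

/-- the adjacency -/
theorem qc3_adj {w z : VL} (h1 : 10 ≤ w.1) (h2 : w.1 ≤ 13) (hz : z.1 = 0 ∨ z.1 = 5) :
    (adj w z = true ∨ adj z w = true) ↔ (z = (5, (w.2.1, w.2.2)) ∨ z = (5, (w.2.2, w.2.1))) := by
  obtain ⟨k, p, q⟩ := w
  obtain ⟨j, u, v⟩ := z
  simp only at h1 h2 hz
  have hj : ¬ (1 ≤ j ∧ j ≤ 4) := by omega
  have hj2 : ¬ (6 ≤ j ∧ j ≤ 9) := by omega
  have hj3 : ¬ (10 ≤ j ∧ j ≤ 13) := by omega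
  constructor
  · rintro (h | h)
    · unfold adj at h
      simp only [Bool.or_eq_true, Bool.and_eq_true, decide_eq_true_eq] at h
      rcases h with h | h | h | h | h
      · omega
      · omega
      · omega
      · exact h.2
      · have h3 := congrArg Prod.fst h.2
        simp only at h3
        omega
    · unfold adj at h
      simp only [Bool.or_eq_true, Bool.and_eq_true, decide_eq_true_eq] at h
      rcases h with h | h | h | h | h
      · have h3 := congrArg Prod.fst h.2
        simp only at h3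
        omega
      · omega
      · omega
      · omega
      · omega
  · intro h
    left
    unfold adj
    simp only [Bool.or_eq_true, Bool.and_eq_true, decide_eq_true_eq]
    exact Or.inr (Or.inr (Or.inr (Or.inl ⟨⟨h1, h2⟩, h⟩)))

theorem t_qc3 (h : S_mem) : S_qc3 := by
  intro I α β ν τ N S hM hS w hw z hz h1 h2 hk
  rw [qc3_adj h1 h2 hk]
  obtain ⟨k, p, q⟩ := w
  have hmw := (h I (k, (p, q))).1 hw
  simp only at h1 h2 hmw
  obtain ⟨hp, hq, hf⟩ : p ∈ base I ∧ q ∈ base I ∧ far I p q = true := by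
    rcases hmw with h3 | h3 | h3
    · omega
    · omega
    · exact h3.2.2
  have n4 : ¬ k ≤ 4 := by omega
  have n9 : ¬ k ≤ 9 := by omega
  by_cases hpq : β p < α q
  · have e1 : or S τ α β ν (k, (p, q)) = S * α q - (α q - β p) + τ := by
      unfold Pool.Agent.H717.PR.or
      rw [if_neg n4, if_neg n9, if_pos hpq]
    have e2 : ol S τ α β ν (k, (p, q)) = S * β p + (α q - β p) - τ := by
      unfold ol
      rw [if_neg n4, if_neg n9, if_pos hpq]
    rw [e1, e2]
    exact (qc3_core h hM hS hp hq hpq hz hk).symm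
  · have hpq' : β q < α p := (hM.far p hp q hq hf).resolve_left hpq
    have e1 : or S τ α β ν (k, (p, q)) = S * α p - (α p - β q) + τ := by
      unfold Pool.Agent.H717.PR.or
      rw [if_neg n4, if_neg n9, if_neg hpq]
    have e2 : ol S τ α β ν (k, (p, q)) = S * β q + (α p - β q) - τ := by
      unfold ol
      rw [if_neg n4, if_neg n9, if_neg hpq]
    rw [e1, e2, Or.comm]
    exact (qc3_core h hM hS hq hp hpq' hz hk).symm

end Pool.Agent.H729.PR
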